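import Pool.Agent.H14.AVS.S2

/-!
# AVS, module TRN: transitivity on primitive isotropic vectors
-/

set_option autoImplicit false

namespace Pool.AVS

open Polynomial Matrix Pool.AVR

namespace TRN

variable {L : Type} [Field L]

lemma bilA (z : Fin 3 → L) : bil (AA L) z z = 2 * z 0 * z 2 + z 1 ^ 2 := by
  simp [bil, AA, Matrix.mulVec, dotProduct, Fin.sum_univ_three]
  ring

/-- Lower unipotent. -/
def lo (s : L) : Matrix (Fin 3) (Fin 3) L := !![1, 0, 0; s, 1, 0; -(s ^ 2) / 2, -s, 1]

/-- The Weyl element times lower unipotent. -/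
def wl (s : L) : Matrix (Fin 3) (Fin 3) L := !![-(s ^ 2) / 2, -s, 1; -s, -1, 0; 1, 0, 0]

lemma lo_orth (h2 : (2 : L) ≠ 0) (s : L) : (lo s)ᵀ * AA L * lo s = AA L := by
  ext i j
  fin_cases i <;> fin_cases j <;>
    simp [lo, AA, Matrix.mul_apply, Fin.sum_univ_three]
  field_simp
  ring

lemma wl_orth (h2 : (2 : L) ≠ 0) (s : L) : (wl s)ᵀ * AA L * wl s = AA L := by
  ext i j
  fin_cases i <;> fin_cases j <;>
    simp [wl, AA, Matrix.mul_apply, Fin.sum_univ_three]
  field_simp
  ring

lemma lo_det (s : L) : (lo s).det = 1 := by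
  simp [lo, Matrix.det_fin_three]

lemma wl_det (s : L) : (wl s).det = 1 := by
  simp [wl, Matrix.det_fin_three]

end TRN

open TRN in
theorem trn_thm : TRNStmt := by
  intro L _ O π hL z hz hprim hiso
  obtain ⟨h2, h2i⟩ := hL.two
  have hunit : ∀ x : L, x ∈ O → x / π ∉ O → x ≠ 0 ∧ x⁻¹ ∈ O := by
    intro x hx hxp
    have hx0 : x ≠ 0 := by
      rintro rfl
      exact hxp (by simp [O.zero_mem])
    refine ⟨hx0, ?_⟩
    by_contra hcon
    exact hxp ((hL.unif x hx hx0).1 hcon)
  have hA : 2 * z 0 * z 2 + z 1 ^ 2 = 0 := by rw [← bilA]; exact hiso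
  have hdiv2 : ∀ x : L, x ∈ O → -(x ^ 2) / 2 ∈ O := by
    intro x hx
    rw [div_eq_mul_inv]
    exact O.mul_mem _ _ (O.neg_mem _ (O.pow_mem hx 2)) h2i
  by_cases h0 : z 0 / π ∈ O
  · have h1 : z 1 / π ∈ O := by
      by_contra h1
      obtain ⟨h10, h1i⟩ := hunit _ (hz 1) h1
      have hz0 : z 0 ≠ 0 := by
        intro h
        rw [h] at hA
        apply h10
        have : z 1 ^ 2 = 0 := by linear_combination hA
        exact pow_eq_zero_iff (two_ne_zero) |>.1 this
      refine ((hL.unif _ (hz 0) hz0).2 h0) ?_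
      have hz2 : z 0 * (-(2 : L) * z 2 * ((z 1)⁻¹) ^ 2) = 1 := by
        field_simp
        linear_combination -hA
      have : (z 0)⁻¹ = -(2 : L) * z 2 * ((z 1)⁻¹) ^ 2 := by
        rw [inv_eq_of_mul_eq_one_right hz2]
      rw [this]
      have h2O : (2 : L) ∈ O := by
        have := O.add_mem _ _ O.one_mem O.one_mem
        rwa [one_add_one_eq_two] at this
      exact O.mul_mem _ _ (O.mul_mem _ _ (O.neg_mem _ h2O) (hz 2)) (O.pow_mem h1i 2)
    have h22 : z 2 / π ∉ O := by
      intro h22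
      obtain ⟨i, hi⟩ := hprim
      fin_cases i
      · exact hi h0
      · exact hi h1
      · exact hi h22
    obtain ⟨h20, h2inv⟩ := hunit _ (hz 2) h22
    have hs : -(z 1) * (z 2)⁻¹ ∈ O := O.mul_mem _ _ (O.neg_mem _ (hz 1)) h2inv
    refine ⟨wl (-(z 1) * (z 2)⁻¹), (z 2)⁻¹, wl_orth h2 _, wl_det _, ?_, ?_, ?_⟩
    · intro i j
      fin_cases i <;> fin_cases j <;> simp only [wl] <;>
        first
        | exact hdiv2 _ hs
        | exact O.neg_mem _ hs
        | exact O.one_mem
        | exact O.zero_mem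
        | exact O.neg_mem _ O.one_mem
    · exact ⟨inv_ne_zero h20, h2inv, by rw [inv_inv]; exact hz 2⟩
    · ext i
      fin_cases i
      · simp [wl, Matrix.mulVec, dotProduct, Fin.sum_univ_three]
        field_simp
        linear_combination -hA
      · simp [wl, Matrix.mulVec, dotProduct, Fin.sum_univ_three]
        ring
      · simp [wl, Matrix.mulVec, dotProduct, Fin.sum_univ_three, h20]
  · obtain ⟨h00, h0i⟩ := hunit _ (hz 0) h0
    have hs : z 1 * (z 0)⁻¹ ∈ O := O.mul_mem _ _ (hz 1) h0i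
    refine ⟨lo (z 1 * (z 0)⁻¹), (z 0)⁻¹, lo_orth h2 _, lo_det _, ?_, ?_, ?_⟩
    · intro i j
      fin_cases i <;> fin_cases j <;> simp only [lo] <;>
        first
        | exact hdiv2 _ hs
        | exact hs
        | exact O.neg_mem _ hs
        | exact O.one_mem
        | exact O.zero_mem
    · exact ⟨inv_ne_zero h00, h0i, by rw [inv_inv]; exact hz 0⟩
    · ext i
      fin_cases i
      · simp [lo, Matrix.mulVec, dotProduct, Fin.sum_univ_three, h00]
      · simp [lo, Matrix.mulVec, dotProduct, Fin.sum_univ_three]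
        ring
      · simp [lo, Matrix.mulVec, dotProduct, Fin.sum_univ_three]
        field_simp
        linear_combination -hA

end Pool.AVS
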