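import Pool.Agent.H23.AVS.TRN

/-!
# AVS, module UNQ: for discriminants of valuation at most one the lattice is unique
-/

set_option autoImplicit false

namespace Pool.AVS

open Polynomial Matrix Pool.AVR

namespace UNQ

open TRN

section general

variable {K : Type} [Field K]

lemma AA_sq : AA K * AA K = 1 := by
  ext i j
  fin_cases i <;> fin_cases j <;> simp [AA, Matrix.mul_apply, Fin.sum_univ_three]

lemma AA_tr : (AA K)ᵀ = AA K := by
  ext i j
  fin_cases i <;> fin_cases j <;> simp [AA]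

lemma left_inv {g : Matrix (Fin 3) (Fin 3) K} (hg : gᵀ * AA K * g = AA K) :
    AA K * gᵀ * AA K * g = 1 := by
  have : AA K * (gᵀ * AA K * g) = 1 := by rw [hg, AA_sq]
  rw [← this]
  simp only [Matrix.mul_assoc]

lemma right_inv {g : Matrix (Fin 3) (Fin 3) K} (hg : gᵀ * AA K * g = AA K) :
    g * (AA K * gᵀ * AA K) = 1 :=
  mul_eq_one_comm.1 (left_inv hg)

lemma outer {g : Matrix (Fin 3) (Fin 3) K} (hg : gᵀ * AA K * g = AA K) :
    g * AA K * gᵀ = AA K := by
  have h := right_inv hg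
  calc g * AA K * gᵀ = g * (AA K * gᵀ * AA K) * AA K := by
        simp only [Matrix.mul_assoc, AA_sq, Matrix.mul_one]
    _ = AA K := by rw [h, Matrix.one_mul]

lemma AM0 (B : Matrix (Fin 3) (Fin 3) K) (j : Fin 3) : (AA K * B) 0 j = B 2 j := by
  simp only [Matrix.mul_apply, Fin.sum_univ_three]
  simp [AA]

lemma AM1 (B : Matrix (Fin 3) (Fin 3) K) (j : Fin 3) : (AA K * B) 1 j = B 1 j := by
  simp only [Matrix.mul_apply, Fin.sum_univ_three]
  simp [AA]

lemma AM2 (B : Matrix (Fin 3) (Fin 3) K) (j : Fin 3) : (AA K * B) 2 j = B 0 j := by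
  simp only [Matrix.mul_apply, Fin.sum_univ_three]
  simp [AA]

lemma tr3 (M : Matrix (Fin 3) (Fin 3) K) : M.trace = M 0 0 + M 1 1 + M 2 2 := by
  simp [Matrix.trace, Fin.sum_univ_three]

lemma trsq (M : Matrix (Fin 3) (Fin 3) K) : (M * M).trace =
    M 0 0 ^ 2 + M 1 1 ^ 2 + M 2 2 ^ 2 + 2 * (M 0 1 * M 1 0 + M 0 2 * M 2 0 + M 1 2 * M 2 1) := by
  rw [tr3]
  simp only [Matrix.mul_apply, Fin.sum_univ_three]
  ring

lemma quad (G : Matrix (Fin 3) (Fin 3) K) (i j : Fin 3) :
    (Gᵀ * AA K * G) i j = G 2 i * G 0 j + G 1 i * G 1 j + G 0 i * G 2 j := by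
  rw [Matrix.mul_assoc, Matrix.mul_apply, Fin.sum_univ_three, AM0, AM1, AM2]
  simp only [Matrix.transpose_apply]
  ring

lemma quad' (G : Matrix (Fin 3) (Fin 3) K) (i j : Fin 3) :
    (G * AA K * Gᵀ) i j = G i 2 * G j 0 + G i 1 * G j 1 + G i 0 * G j 2 := by
  rw [Matrix.mul_assoc, Matrix.mul_apply, Fin.sum_univ_three, AM0, AM1, AM2]
  simp only [Matrix.transpose_apply]
  ring

lemma ia_eq {B : Matrix (Fin 3) (Fin 3) K} (hB : Bᵀ = B) : ia B = -(AA K * B).trace := by
  have h20 : B 2 0 = B 0 2 := congrFun (congrFun hB 0) 2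
  rw [tr3, AM0, AM1, AM2, h20, ia]
  ring

lemma ib_eq {B : Matrix (Fin 3) (Fin 3) K} (hB : Bᵀ = B) :
    2 * ib B = (AA K * B).trace ^ 2 - (AA K * B * (AA K * B)).trace := by
  have h20 : B 2 0 = B 0 2 := congrFun (congrFun hB 0) 2
  have h10 : B 1 0 = B 0 1 := congrFun (congrFun hB 0) 1
  have h21 : B 2 1 = B 1 2 := congrFun (congrFun hB 1) 2
  rw [trsq, tr3, AM0, AM0, AM0, AM1, AM1, AM1, AM2, AM2, AM2, h20, h10, h21, ib]
  ring

lemma det_sq {k : Matrix (Fin 3) (Fin 3) K} (hk : kᵀ * AA K * k = AA K) : k.det * k.det = 1 := by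
  have h := congrArg Matrix.det (left_inv hk)
  rw [Matrix.det_mul, Matrix.det_mul, Matrix.det_mul, Matrix.det_transpose, Matrix.det_one] at h
  have hA : (AA K).det * (AA K).det = 1 := by
    rw [← Matrix.det_mul, AA_sq, Matrix.det_one]
  linear_combination h - k.det * k.det * hA

lemma dB_inv (h2 : (2 : K) ≠ 0) {B k : Matrix (Fin 3) (Fin 3) K} (hB : Bᵀ = B)
    (hk : kᵀ * AA K * k = AA K) : dB (kᵀ * B * k) = dB B := by
  have hB' : (kᵀ * B * k)ᵀ = kᵀ * B * k := by
    rw [Matrix.transpose_mul, Matrix.transpose_mul, Matrix.transpose_transpose, hB,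
      Matrix.mul_assoc]
  have ho := outer hk
  have h1 : (AA K * (kᵀ * B * k)).trace = (AA K * B).trace := by
    calc (AA K * (kᵀ * B * k)).trace = ((AA K * kᵀ * B) * k).trace := by
          simp only [Matrix.mul_assoc]
      _ = (k * (AA K * kᵀ * B)).trace := Matrix.trace_mul_comm _ _
      _ = ((k * AA K * kᵀ) * B).trace := by simp only [Matrix.mul_assoc]
      _ = (AA K * B).trace := by rw [ho]
  have h3 : (AA K * (kᵀ * B * k) * (AA K * (kᵀ * B * k))).trace
      = (AA K * B * (AA K * B)).trace := by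
    calc (AA K * (kᵀ * B * k) * (AA K * (kᵀ * B * k))).trace
        = ((AA K * kᵀ * B * (k * AA K * kᵀ) * B) * k).trace := by
          simp only [Matrix.mul_assoc]
      _ = (k * (AA K * kᵀ * B * (k * AA K * kᵀ) * B)).trace := Matrix.trace_mul_comm _ _
      _ = ((k * AA K * kᵀ) * B * (k * AA K * kᵀ) * B).trace := by
          simp only [Matrix.mul_assoc]
      _ = (AA K * B * (AA K * B)).trace := by rw [ho]; simp only [Matrix.mul_assoc]
  have ea : ia (kᵀ * B * k) = ia B := by rw [ia_eq hB', ia_eq hB, h1]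
  have eb : ib (kᵀ * B * k) = ib B := by
    have : 2 * ib (kᵀ * B * k) = 2 * ib B := by rw [ib_eq hB', ib_eq hB, h1, h3]
    exact mul_left_cancel₀ h2 this
  have ec : ic (kᵀ * B * k) = ic B := by
    unfold ic
    rw [Matrix.det_mul, Matrix.det_mul, Matrix.det_transpose]
    linear_combination B.det * det_sq hk
  unfold dB
  rw [ea, eb, ec]

lemma dB_mem (O : ValuationSubring K) (π : K) (hπ : π ≠ 0) (hπO : π ∈ O)
    {B : Matrix (Fin 3) (Fin 3) K} (hB : Bᵀ = B) (hO : MI (O : Set K) B)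
    (h00 : B 0 0 / π ^ 2 ∈ O) (h01 : B 0 1 / π ∈ O) : dB B / π ^ 2 ∈ O := by
  have h20 : B 2 0 = B 0 2 := congrFun (congrFun hB 0) 2
  have h10 : B 1 0 = B 0 1 := congrFun (congrFun hB 0) 1
  have h21 : B 2 1 = B 1 2 := congrFun (congrFun hB 1) 2
  obtain ⟨p, hp⟩ : ∃ p : O, algebraMap O K p = B 0 0 / π ^ 2 := ⟨⟨_, h00⟩, rfl⟩
  obtain ⟨q, hq⟩ : ∃ q : O, algebraMap O K q = B 0 1 / π := ⟨⟨_, h01⟩, rfl⟩
  obtain ⟨r, hr⟩ : ∃ r : O, algebraMap O K r = π := ⟨⟨_, hπO⟩, rfl⟩
  obtain ⟨b02, e02⟩ : ∃ r : O, algebraMap O K r = B 0 2 := ⟨⟨_, hO 0 2⟩, rfl⟩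
  obtain ⟨b11, e11⟩ : ∃ r : O, algebraMap O K r = B 1 1 := ⟨⟨_, hO 1 1⟩, rfl⟩
  obtain ⟨b12, e12⟩ : ∃ r : O, algebraMap O K r = B 1 2 := ⟨⟨_, hO 1 2⟩, rfl⟩
  obtain ⟨b22, e22⟩ : ∃ r : O, algebraMap O K r = B 2 2 := ⟨⟨_, hO 2 2⟩, rfl⟩
  have e00 : B 0 0 = algebraMap O K r ^ 2 * algebraMap O K p := by rw [hp, hr]; field_simp
  have e01 : B 0 1 = algebraMap O K r * algebraMap O K q := by rw [hq, hr]; field_simp
  have key : dB B / π ^ 2 = algebraMap O K
      ((-2 * b12 * q - b22 * (r * p)) ^ 2 * ((3 * b02 - (2 * b02 + b11)) ^ 2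
          - 4 * (r * (-2 * b12 * q - b22 * (r * p))))
        + (p * (b11 * b22 - b12 ^ 2 - b22 * b02) - q ^ 2 * b22) *
          (-4 * (3 * b02 - (2 * b02 + b11)) ^ 3
            + 18 * (3 * b02 - (2 * b02 + b11)) * (r * (-2 * b12 * q - b22 * (r * p)))
            - 27 * (r ^ 2 * (p * (b11 * b22 - b12 ^ 2 - b22 * b02) - q ^ 2 * b22)))) := by
    rw [div_eq_iff (pow_ne_zero 2 hπ)]
    unfold dB disc ia ib ic
    rw [Matrix.det_fin_three, h20, h10, h21, e00, e01, ← e02, ← e11, ← e12, ← e22, ← hr]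
    simp only [map_add, map_sub, map_mul, map_pow, map_neg, map_ofNat]
    ring
  have hmem : ∀ y : O, algebraMap O K y ∈ O := fun y => y.2
  rw [key]
  exact hmem _

lemma trn_gen (O : ValuationSubring K) (π : K) (h2 : (2 : K) ≠ 0) (h2i : (2 : K)⁻¹ ∈ O)
    (hunif : ∀ x : K, x ∈ O → x ≠ 0 → (x⁻¹ ∉ O ↔ x / π ∈ O)) (z : Fin 3 → K)
    (hz : ∀ i, z i ∈ O) (hprim : ∃ i, z i / π ∉ O) (hA : 2 * z 0 * z 2 + z 1 ^ 2 = 0) :
    ∃ (g : Matrix (Fin 3) (Fin 3) K) (t : K), gᵀ * AA K * g = AA K ∧ g.det = 1 ∧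
      MI (O : Set K) g ∧ UI (O : Set K) t ∧ g *ᵥ ![1, 0, 0] = t • z := by
  have hunit : ∀ x : K, x ∈ O → x / π ∉ O → x ≠ 0 ∧ x⁻¹ ∈ O := by
    intro x hx hxp
    have hx0 : x ≠ 0 := by
      rintro rfl
      exact hxp (by simp [O.zero_mem])
    refine ⟨hx0, ?_⟩
    by_contra hcon
    exact hxp ((hunif x hx hx0).1 hcon)
  have hdiv2 : ∀ x : K, x ∈ O → -(x ^ 2) / 2 ∈ O := by
    intro x hx
    rw [div_eq_mul_inv]
    exact O.mul_mem _ _ (O.neg_mem _ (O.pow_mem hx 2)) h2i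
  by_cases h0 : z 0 / π ∈ O
  · have h1 : z 1 / π ∈ O := by
      by_contra h1
      obtain ⟨h10, h1i⟩ := hunit _ (hz 1) h1
      have hz0 : z 0 ≠ 0 := by
        intro h
        rw [h] at hA
        apply h10
        have : z 1 ^ 2 = 0 := by linear_combination hA
        exact pow_eq_zero_iff (two_ne_zero) |>.1 this
      refine ((hunif _ (hz 0) hz0).2 h0) ?_
      have hz2 : z 0 * (-(2 : K) * z 2 * ((z 1)⁻¹) ^ 2) = 1 := by
        field_simp
        linear_combination -hA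
      have : (z 0)⁻¹ = -(2 : K) * z 2 * ((z 1)⁻¹) ^ 2 := by
        rw [inv_eq_of_mul_eq_one_right hz2]
      rw [this]
      have h2O : (2 : K) ∈ O := by
        have := O.add_mem _ _ O.one_mem O.one_mem
        rwa [one_add_one_eq_two] at this
      exact O.mul_mem _ _ (O.mul_mem _ _ (O.neg_mem _ h2O) (hz 2)) (O.pow_mem h1i 2)
    have h22 : z 2 / π ∉ O := by
      intro h22
      obtain ⟨i, hi⟩ := hprim
      fin_cases i
      · exact hi h0
      · exact hi h1
      · exact hi h22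
    obtain ⟨h20, h2inv⟩ := hunit _ (hz 2) h22
    have hs : -(z 1) * (z 2)⁻¹ ∈ O := O.mul_mem _ _ (O.neg_mem _ (hz 1)) h2inv
    refine ⟨wl (-(z 1) * (z 2)⁻¹), (z 2)⁻¹, wl_orth h2 _, wl_det _, ?_, ?_, ?_⟩
    · intro i j
      fin_cases i <;> fin_cases j <;> simp only [wl] <;>
        first
        | exact hdiv2 _ hs
        | exact O.neg_mem _ hs
        | exact O.one_mem
        | exact O.zero_mem
        | exact O.neg_mem _ O.one_mem
    · exact ⟨inv_ne_zero h20, h2inv, by rw [inv_inv]; exact hz 2⟩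
    · ext i
      fin_cases i
      · simp [wl, Matrix.mulVec, dotProduct, Fin.sum_univ_three]
        field_simp
        linear_combination -hA
      · simp [wl, Matrix.mulVec, dotProduct, Fin.sum_univ_three]
        ring
      · simp [wl, Matrix.mulVec, dotProduct, Fin.sum_univ_three, h20]
  · obtain ⟨h00, h0i⟩ := hunit _ (hz 0) h0
    have hs : z 1 * (z 0)⁻¹ ∈ O := O.mul_mem _ _ (hz 1) h0i
    refine ⟨lo (z 1 * (z 0)⁻¹), (z 0)⁻¹, lo_orth h2 _, lo_det _, ?_, ?_, ?_⟩
    · intro i j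
      fin_cases i <;> fin_cases j <;> simp only [lo] <;>
        first
        | exact hdiv2 _ hs
        | exact hs
        | exact O.neg_mem _ hs
        | exact O.one_mem
        | exact O.zero_mem
    · exact ⟨inv_ne_zero h00, h0i, by rw [inv_inv]; exact hz 0⟩
    · ext i
      fin_cases i
      · simp [lo, Matrix.mulVec, dotProduct, Fin.sum_univ_three, h00]
      · simp [lo, Matrix.mulVec, dotProduct, Fin.sum_univ_three]
        ring
      · simp [lo, Matrix.mulVec, dotProduct, Fin.sum_univ_three]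
        field_simp
        linear_combination -hA

/-- If some entry is not integral there is an entry of maximal pole. -/
lemma exists_max (O : ValuationSubring K) (g : Matrix (Fin 3) (Fin 3) K)
    (hg : ¬ MI (O : Set K) g) : ∃ i₀ j₀, g i₀ j₀ ∉ O ∧ ∀ i j, (g i₀ j₀)⁻¹ * g i j ∈ O := by
  obtain ⟨p, hp⟩ := Finite.exists_max (fun p : Fin 3 × Fin 3 => O.valuation (g p.1 p.2))
  have hnot : g p.1 p.2 ∉ O := by
    intro h
    apply hg
    intro i j
    have h1 := (O.valuation_le_one_iff _).2 h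
    exact (O.valuation_le_one_iff _).1 ((hp (i, j)).trans h1)
  refine ⟨p.1, p.2, hnot, ?_⟩
  intro i j
  have hne : g p.1 p.2 ≠ 0 := by
    intro h
    exact hnot (by rw [h]; exact O.zero_mem)
  rw [← O.valuation_le_one_iff, map_mul, map_inv₀]
  have hv : O.valuation (g p.1 p.2) ≠ 0 := by
    rw [Ne, map_eq_zero]
    exact hne
  calc (O.valuation (g p.1 p.2))⁻¹ * O.valuation (g i j)
      ≤ (O.valuation (g p.1 p.2))⁻¹ * O.valuation (g p.1 p.2) :=
        mul_le_mul_right (hp (i, j)) _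
    _ = 1 := inv_mul_cancel₀ hv

end general

end UNQ

open UNQ in
theorem unq_thm : UNQStmt := by
  intro K _ O π h2 h2i hπO hπ hunif harch B g hB hBO hdisc hgA hC
  by_contra hg
  obtain ⟨i₀, j₀, hx, hmax⟩ := exists_max O g hg
  set x := g i₀ j₀ with hxdef
  have hx0 : x ≠ 0 := by
    intro h
    exact hx (by rw [h]; exact O.zero_mem)
  set ξ := x⁻¹ with hξ
  have hξ0 : ξ ≠ 0 := inv_ne_zero hx0
  have hξO : ξ ∈ O := (O.mem_or_inv_mem x).resolve_left hx
  have hξπ : ξ / π ∈ O := by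
    refine (hunif ξ hξO hξ0).1 ?_
    rw [hξ, inv_inv]
    exact hx
  have h1π : (1 : K) / π ∉ O := by
    intro h
    exact ((hunif 1 O.one_mem one_ne_zero).2 h) (by rw [inv_one]; exact O.one_mem)
  have hsq : ∀ y : K, y ^ 2 ∈ O → y ∈ O := by
    intro y hy
    rcases O.mem_or_inv_mem y with h | h
    · exact h
    · by_cases hy0 : y = 0
      · rw [hy0]; exact O.zero_mem
      · have : y = y ^ 2 * y⁻¹ := by field_simp
        rw [this]
        exact O.mul_mem _ _ hy h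
  -- the scaled matrix
  set G : Matrix (Fin 3) (Fin 3) K := ξ • g with hG
  have hGO : ∀ i j, G i j ∈ O := hmax
  have hG1 : G i₀ j₀ = 1 := by
    simp only [hG, Matrix.smul_apply, smul_eq_mul]
    exact inv_mul_cancel₀ hx0
  have hGA : Gᵀ * AA K * G = ξ ^ 2 • AA K := by
    rw [hG, Matrix.transpose_smul, Matrix.smul_mul, Matrix.smul_mul, Matrix.mul_smul, hgA,
      smul_smul, pow_two]
  have hGO' : G * AA K * Gᵀ = ξ ^ 2 • AA K := by
    rw [hG, Matrix.transpose_smul, Matrix.smul_mul, Matrix.smul_mul, Matrix.mul_smul,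
      outer hgA, smul_smul, pow_two]
  -- a primitive isotropic column
  obtain ⟨j, hj, i₁, hprim⟩ : ∃ j : Fin 3, (AA K) j j = 0 ∧ ∃ i₁, G i₁ j / π ∉ O := by
    by_cases hj1 : j₀ = 1
    · refine ⟨0, by simp [AA], i₀, ?_⟩
      intro hcon
      apply h1π
      have h := congrFun (congrFun hGO' i₀) i₀
      have hrow : 2 * G i₀ 0 * G i₀ 2 + G i₀ 1 ^ 2 = ξ ^ 2 * (AA K) i₀ i₀ := by
        rw [Matrix.smul_apply, smul_eq_mul] at h
        rw [← h, quad']
        ring
      have hg1 : G i₀ 1 = 1 := by rw [← hj1]; exact hG1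
      rw [hg1] at hrow
      have e : (1 : K) / π = ξ * (ξ / π) * (AA K) i₀ i₀ - 2 * (G i₀ 0 / π) * G i₀ 2 := by
        field_simp
        linear_combination hrow
      rw [e]
      have hAO : (AA K) i₀ i₀ ∈ O := by
        have : ∀ i : Fin 3, (AA K) i i ∈ O := by
          intro i
          fin_cases i <;> simp [AA, O.zero_mem, O.one_mem]
        exact this i₀
      have h2O : (2 : K) ∈ O := by
        have := O.add_mem _ _ O.one_mem O.one_mem
        rwa [one_add_one_eq_two] at this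
      exact O.sub_mem (O.mul_mem _ _ (O.mul_mem _ _ hξO hξπ) hAO)
        (O.mul_mem _ _ (O.mul_mem _ _ h2O hcon) (hGO i₀ 2))
    · refine ⟨j₀, ?_, i₀, ?_⟩
      · fin_cases j₀
        · simp [AA]
        · exact absurd rfl hj1
        · simp [AA]
      · rw [hG1]; exact h1π
  have hiso : 2 * G 0 j * G 2 j + G 1 j ^ 2 = 0 := by
    have h := congrFun (congrFun hGA j) j
    rw [Matrix.smul_apply, hj, smul_zero] at h
    rw [← h, quad]
    ring
  obtain ⟨k, t, hk, hkdet, hkO, ⟨ht0, htO, htiO⟩, hkz⟩ :=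
    trn_gen O π h2 h2i hunif (fun i => G i j) (fun i => hGO i j) ⟨i₁, hprim⟩ hiso
  -- the inverse of `k`
  set κ : Matrix (Fin 3) (Fin 3) K := AA K * kᵀ * AA K with hκ
  have hκk : κ * k = 1 := left_inv hk
  have hkκ : k * κ = 1 := right_inv hk
  have hAO : ∀ i j, (AA K) i j ∈ O := by
    intro i j
    fin_cases i <;> fin_cases j <;> simp [AA, O.zero_mem, O.one_mem]
  have hmulO : ∀ M N : Matrix (Fin 3) (Fin 3) K, (∀ i j, M i j ∈ O) → (∀ i j, N i j ∈ O) →
      ∀ i j, (M * N) i j ∈ O := by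
    intro M N hM hN i j
    rw [Matrix.mul_apply]
    exact O.sum_mem (fun l _ => O.mul_mem _ _ (hM i l) (hN l j))
  have hκO : ∀ i j, κ i j ∈ O :=
    hmulO _ _ (hmulO _ _ hAO (fun i j => hkO j i)) hAO
  have hκA : κᵀ * AA K * κ = AA K := by
    have : κᵀ * AA K * κ = κᵀ * (kᵀ * AA K * k) * κ := by rw [hk]
    rw [this]
    calc κᵀ * (kᵀ * AA K * k) * κ = (κᵀ * kᵀ) * AA K * (k * κ) := by
          simp only [Matrix.mul_assoc]
      _ = (k * κ)ᵀ * AA K * (k * κ) := by rw [← Matrix.transpose_mul k κ]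
      _ = AA K := by rw [hkκ]; simp
  set H : Matrix (Fin 3) (Fin 3) K := κ * G with hH
  have hHO : ∀ i j, H i j ∈ O := hmulO _ _ hκO hGO
  have hHA : Hᵀ * AA K * H = ξ ^ 2 • AA K := by
    calc Hᵀ * AA K * H = Gᵀ * (κᵀ * AA K * κ) * G := by
          rw [hH, Matrix.transpose_mul]
          simp only [Matrix.mul_assoc]
      _ = ξ ^ 2 • AA K := by rw [hκA, hGA]
  -- column `j` of `H`
  have hcol : ∀ i, H i j = t⁻¹ * (![1, 0, 0] : Fin 3 → K) i := by
    intro i
    have h1 : κ *ᵥ (k *ᵥ ![1, 0, 0]) = κ *ᵥ (t • fun i => G i j) := by rw [hkz]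
    rw [Matrix.mulVec_mulVec, hκk, Matrix.one_mulVec, Matrix.mulVec_smul] at h1
    have h3 := congrFun h1 i
    have h4 : (κ *ᵥ fun i => G i j) i = H i j := by
      rw [hH, Matrix.mul_apply]
      rfl
    rw [Pi.smul_apply, smul_eq_mul, h4] at h3
    rw [h3]
    field_simp
  have hc0 : H 0 j = t⁻¹ := by rw [hcol]; simp
  have hc1 : H 1 j = 0 := by rw [hcol]; simp
  have hc2 : H 2 j = 0 := by rw [hcol]; simp
  have hH2 : ∀ l, H 2 l / π ^ 2 ∈ O := by
    intro l
    have h := congrFun (congrFun hHA l) j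
    rw [Matrix.smul_apply, smul_eq_mul] at h
    have h' : H 2 l * t⁻¹ = ξ ^ 2 * (AA K) l j := by
      rw [← h, quad, hc0, hc1, hc2]
      ring
    have : H 2 l / π ^ 2 = t * ((ξ / π) ^ 2 * (AA K) l j) := by
      field_simp
      field_simp at h'
      linear_combination h'
    rw [this]
    exact O.mul_mem _ _ htO (O.mul_mem _ _ (O.pow_mem hξπ 2) (hAO l j))
  have hH1 : ∀ l, H 1 l / π ∈ O := by
    intro l
    apply hsq
    have h := congrFun (congrFun hHA l) l
    rw [Matrix.smul_apply, smul_eq_mul] at h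
    have h' : 2 * H 0 l * H 2 l + H 1 l ^ 2 = ξ ^ 2 * (AA K) l l := by
      rw [← h, quad]
      ring
    have : (H 1 l / π) ^ 2 = (ξ / π) ^ 2 * (AA K) l l - 2 * H 0 l * (H 2 l / π ^ 2) := by
      field_simp
      linear_combination h'
    rw [this]
    have h2O : (2 : K) ∈ O := by
      have := O.add_mem _ _ O.one_mem O.one_mem
      rwa [one_add_one_eq_two] at this
    exact O.sub_mem (O.mul_mem _ _ (O.pow_mem hξπ 2) (hAO l l))
      (O.mul_mem _ _ (O.mul_mem _ _ h2O (hHO 0 l)) (hH2 l))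
  -- the transformed form
  set B' : Matrix (Fin 3) (Fin 3) K := kᵀ * B * k with hB'
  have hB't : B'ᵀ = B' := by
    rw [hB', Matrix.transpose_mul, Matrix.transpose_mul, Matrix.transpose_transpose, hB,
      Matrix.mul_assoc]
  have hB'O : ∀ i j, B' i j ∈ O := hmulO _ _ (hmulO _ _ (fun i j => hkO j i) hBO) hkO
  set C' : Matrix (Fin 3) (Fin 3) K := AA K * (gᵀ * B * g) with hC'
  have hC'O : ∀ i j, C' i j ∈ O := hmulO _ _ hAO hC
  have hmain : AA K * B' * H = H * C' := by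
    have e1 : AA K * B' * H = κ * (AA K * B * G) := by
      calc AA K * B' * H = AA K * kᵀ * B * (k * κ) * G := by
            rw [hB', hH]
            simp only [Matrix.mul_assoc]
        _ = AA K * kᵀ * (AA K * AA K) * B * G := by
            rw [hkκ, AA_sq]
            simp only [Matrix.mul_one]
        _ = κ * (AA K * B * G) := by
            rw [hκ]
            simp only [Matrix.mul_assoc]
    have e2 : AA K * B * G = G * C' := by
      have : AA K * B * g = g * C' := by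
        calc AA K * B * g = (g * AA K * gᵀ) * B * g := by rw [outer hgA]
          _ = g * C' := by
            rw [hC']
            simp only [Matrix.mul_assoc]
      rw [hG, Matrix.mul_smul, Matrix.smul_mul, this]
    rw [e1, e2, hH]
    exact (Matrix.mul_assoc κ G C').symm
  have hrow : ∀ i, (AA K * B') i 0 = t * ∑ l, H i l * C' l j := by
    intro i
    have h := congrFun (congrFun hmain i) j
    rw [Matrix.mul_apply, Matrix.mul_apply, Fin.sum_univ_three, hc0, hc1, hc2, mul_zero,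
      mul_zero, add_zero, add_zero] at h
    rw [← h]
    field_simp
  have h00 : B' 0 0 / π ^ 2 ∈ O := by
    have h := hrow 2
    have e : (AA K * B') 2 0 = B' 0 0 := AM2 B' 0
    rw [e, Fin.sum_univ_three] at h
    have : B' 0 0 / π ^ 2 = t * (H 2 0 / π ^ 2 * C' 0 j + H 2 1 / π ^ 2 * C' 1 j
        + H 2 2 / π ^ 2 * C' 2 j) := by
      rw [h]
      field_simp
    rw [this]
    exact O.mul_mem _ _ htO (O.add_mem _ _ (O.add_mem _ _ (O.mul_mem _ _ (hH2 0) (hC'O 0 j))
      (O.mul_mem _ _ (hH2 1) (hC'O 1 j))) (O.mul_mem _ _ (hH2 2) (hC'O 2 j)))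
  have h01 : B' 0 1 / π ∈ O := by
    have h := hrow 1
    have e : (AA K * B') 1 0 = B' 0 1 := by
      have h10 : B' 1 0 = B' 0 1 := congrFun (congrFun hB't 0) 1
      rw [← h10]
      exact AM1 B' 0
    rw [e, Fin.sum_univ_three] at h
    have : B' 0 1 / π = t * (H 1 0 / π * C' 0 j + H 1 1 / π * C' 1 j
        + H 1 2 / π * C' 2 j) := by
      rw [h]
      field_simp
    rw [this]
    exact O.mul_mem _ _ htO (O.add_mem _ _ (O.add_mem _ _ (O.mul_mem _ _ (hH1 0) (hC'O 0 j))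
      (O.mul_mem _ _ (hH1 1) (hC'O 1 j))) (O.mul_mem _ _ (hH1 2) (hC'O 2 j)))
  have hfin := dB_mem O π hπ hπO hB't hB'O h00 h01
  rw [hB', dB_inv h2 hB hk] at hfin
  exact hdisc hfin

end Pool.AVS
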